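import Pool.Agent.helper90.IV.Spec

/-!
# Row iv:LOC (MP_26dbae_co): one fibre of the light machine.
-/

set_option autoImplicit false

open scoped BigOperators

namespace Pool.Agent.IV

open Pool.Agent.helper23.TH Pool.Agent.KS

noncomputable section

open Classical

theorem LOC_card {I : Type} [Fintype I] {V K : Type} (T : Tr I) (lam : Fin 2 → V → V → K)
    (gh : T.R → Option I) (W : Finset I) (y : T.R → V) (x : I → V) :
    (tkL T lam gh W y x).card ≤ TB T := by
  unfold tkL TB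
  refine (Finset.card_union_le _ _).trans ?_
  have h1 : (W.image fun i => (Sum.inl (x i) : Tk V K)).card ≤ Fintype.card I :=
    Finset.card_image_le.trans (Finset.card_le_univ W)
  have h2 : ((Finset.univ.filter fun p : Fin 2 × T.Ed => T.tc W p.2 ∧ lve T gh p.2).image fun p =>
      (Sum.inr (p.1, T.col lam p.1 x y p.2) : Tk V K)).card ≤ 2 * Fintype.card T.Ed := by
    refine Finset.card_image_le.trans ((Finset.card_le_univ _).trans ?_)
    rw [Fintype.card_prod, Fintype.card_fin]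
  omega

theorem LOC (hBL : BL_stmt) (hDR : DR_stmt) (hCMB : CMB_stmt) (hDGB : DGB_stmt) : LOC_stmt := by
  intro I _ T s Ch P'
  refine ⟨(P' + 1) * TB T + P' * TB T + 1, fun P₁ => ?_⟩
  obtain ⟨C, hC⟩ := hBL I T (P' + (Ch + TB T)) P₁
  refine ⟨C, ?_⟩
  intro V K _ A lam gh W y F hPr hGI hW hF hag hcard
  obtain ⟨B, F', hWB, hB, hFF, hle, hagB, a, ha, hdis⟩ := hC V K A lam gh W y F hPr hW
    (fun x hx => ⟨(Finset.mem_filter.1 (hF x hx).1).2.1, (hF x hx).2.2.2.2⟩) hag hcard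
  have hne : F'.Nonempty := by
    rw [Finset.nonempty_iff_ne_empty]
    intro h
    rw [h, Finset.card_empty, mul_zero] at hle
    omega
  refine ⟨B, hWB, hB, ?_, ?_⟩
  · obtain ⟨x₀, hx₀⟩ := hne
    exact hDGB I T s (P' + (Ch + TB T)) Ch V K A lam gh W B y x₀ a hPr hGI hWB (by omega)
      (hF x₀ (hFF hx₀)).1 (fun j => (hF _ (hFF (ha j))).1) (fun j i hi => hagB _ (ha j) _ hx₀ i hi)
      (hF x₀ (hFF hx₀)).2.2.2.1 hdis
  · refine hle.trans (Nat.mul_le_mul_left _ (Finset.card_le_card ?_))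
    intro x₀ hx₀
    refine Finset.mem_filter.2 ⟨hFF hx₀, ?_⟩
    obtain ⟨e, he, hed⟩ := hDR (Tk V K) P' (Ch + TB T) (fun j => tkL T lam gh Bᶜ y (a j))
      (tkL T lam gh Bᶜ y x₀) (fun j j' h => hdis j j' h)
      ((LOC_card T lam gh Bᶜ y x₀).trans (by omega))
    exact hCMB I T s _ P' V K A lam gh W B y x₀ (fun j => a (e j)) hPr hGI hWB (by omega)
      (hF x₀ (hFF hx₀)).1 (fun j => (hF _ (hFF (ha _))).1) (fun j i hi => hagB _ (ha _) _ hx₀ i hi)
      (fun j => (hF _ (hFF (ha _))).2.1) (fun j => (hF _ (hFF (ha _))).2.2.1)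
      (fun j j' h => hdis _ _ (fun h' => h (he h'))) (fun j => hed j)

end

end Pool.Agent.IV
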